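import Pool.Agent.Helper24.OP.PfTail
import Pool.Agent.Helper49.OP.MomEven
import Pool.Agent.Helper53.OP.Odd
import Pool.Agent.Helper62.OP.Loc
import Pool.Agent.Helper82.OP.Var
import Pool.Agent.Helper44.OP.Wo

/-!
# OP: the tails of the prime sum of a linear prediction
-/

set_option autoImplicit false
open MeasureTheory Set Filter Topology
open Pool.Agent.Helper57.TX (QX DP rs)
open Pool.Agent.Helper62.OP (Rng Fam Pf)

namespace Pool.Agent.Helper24.OP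

/-- O11: the tails of `Pf` -/
theorem pf_tail {k d : ℝ} (hk : 0 < k) (hkd : k ≤ d / 100) (hd : 0 < d) (hd1 : d ≤ 1) : ∃ c C T₀ : ℝ, 0 < c ∧ 1 ≤ C ∧
    ∀ T R L e : ℝ, T₀ ≤ T → C ≤ L → Rng d T R L → d / 2 ≤ e → e ≤ 3 → ∀ F : Fam R L, F.B ≤ L ^ c →
      ENNReal.ofReal (1 / C * (L / R) ^ (-((1 + 10 * k) * e ^ 2)) * T) ≤ volume {t : ℝ | t ∈ Icc T (2 * T) ∧ e ≤ Pf k T F t} ∧
      ENNReal.ofReal (1 / C * (L / R) ^ (-((1 + 10 * k) * e ^ 2)) * T) ≤ volume {t : ℝ | t ∈ Icc T (2 * T) ∧ Pf k T F t ≤ -e} :=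
  pf_tail_of Pool.Agent.Helper49.OP.mom_even Pool.Agent.Helper62.OP.mom_odd
    (Pool.Agent.Helper62.OP.loc_one hk (by linarith)) (Pool.Agent.Helper82.OP.var_low hk hkd hd hd1)
    (Pool.Agent.Helper44.OP.wo_le hk hkd hd hd1) hk hkd hd hd1

end Pool.Agent.Helper24.OP
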