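import Pool.Agent.Helper62.OP.Defs
import Pool.Agent.Helper62.NS.Loc

/-!
# OP: the tails of the prime sum of a linear prediction, over the moments, the localisation and the variance
-/

set_option autoImplicit false
open MeasureTheory Set Filter Topology
open Pool.Agent.Helper57.Zeta Pool.Agent.Helper57.LH Pool.Agent.Helper57.ED
open Pool.Agent.Helper54.LG (za zb qk SS MM)
open Pool.Agent.Helper93.UG (zc sp)
open Pool.Agent.Helper69.UG (XX NX near far)
open Pool.Agent.Helper57.TX (QX DP rs)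
open Pool.Agent.Helper57.NS (cnt)
open Pool.Agent.Helper62.NS (gm gm_succ gm_pos)
open Pool.Agent.Helper62.OP

namespace Pool.Agent.Helper24.OP

/-- Even moments. -/
def MomEven : Prop := ∃ T₀ : ℝ, ∀ T Y : ℝ, T₀ ≤ T → 1 ≤ Y → ∀ (Q : Finset ℕ) (w : ℕ → ℂ) (m : ℕ) (x : ℝ),
    (∀ p ∈ Q, p.Prime ∧ (p : ℝ) ≤ Y) → Y ^ (m + 1) ≤ T ^ (1 / 16 : ℝ) → (∀ p ∈ Q, ‖w p‖ ^ 2 / p ≤ x) →
    4 * (m : ℝ) ^ 2 * x ≤ ∑ p ∈ Q, ‖w p‖ ^ 2 / p → 0 < ∑ p ∈ Q, ‖w p‖ ^ 2 / p →
    T / 2 * ((2 * m).factorial / (2 ^ m * m.factorial) : ℝ) * ((∑ p ∈ Q, ‖w p‖ ^ 2 / p) / 2) ^ m ≤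
      ∫ t in Icc T (2 * T), (Helper62.OP.DC Q w t).re ^ (2 * m) ∧
    ∫ t in Icc T (2 * T), (Helper62.OP.DC Q w t).re ^ (2 * m) ≤
      2 * T * ((2 * m).factorial / (2 ^ m * m.factorial) : ℝ) * ((∑ p ∈ Q, ‖w p‖ ^ 2 / p) / 2) ^ m

/-- Odd moments. -/
def MomOdd : Prop := ∃ T₀ : ℝ, ∀ T Y : ℝ, T₀ ≤ T → 1 ≤ Y → ∀ (Q : Finset ℕ) (w : ℕ → ℂ) (m : ℕ),
    (∀ p ∈ Q, p.Prime ∧ (p : ℝ) ≤ Y) → Y ^ (m + 1) ≤ T ^ (1 / 16 : ℝ) →
    |∫ t in Icc T (2 * T), (Helper62.OP.DC Q w t).re ^ (2 * m + 1)| ≤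
      T ^ (3 / 4 : ℝ) * Real.sqrt (∑ p ∈ Q, ‖w p‖ ^ 2 / p) ^ (2 * m + 1)

/-- One-sided localisation. -/
def LocOne (h : ℝ) : Prop := ∃ (c : ℝ) (K : ℕ), 0 < c ∧ 1 ≤ K ∧ ∀ (A B T V e : ℝ) (X : ℝ → ℝ),
    Continuous X → 0 < T → 0 < V → 0 < e → e ≤ 3 →
    (∀ n : ℕ, (n : ℝ) ≤ K * (1 + 1 / V) → 1 / 2 * (gm n * V ^ n) * T ≤ ∫ t in Icc A B, X t ^ (2 * n)) →
    (∀ n : ℕ, (n : ℝ) ≤ K * (1 + 1 / V) → ∫ t in Icc A B, X t ^ (2 * n) ≤ 2 * (gm n * V ^ n) * T) →
    (∀ n : ℕ, (n : ℝ) ≤ K * (1 + 1 / V) → |∫ t in Icc A B, X t ^ (2 * n + 1)| ≤ e / K * (gm n * V ^ n) * T) →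
    ENNReal.ofReal (c * Real.exp (-((1 + h) * e ^ 2 / V)) * T) ≤ volume {t | t ∈ Icc A B ∧ e ≤ X t} ∧
    ENNReal.ofReal (c * Real.exp (-((1 + h) * e ^ 2 / V)) * T) ≤ volume {t | t ∈ Icc A B ∧ X t ≤ -e}

/-- The variance from below. -/
def VarLow (k d : ℝ) : Prop := ∃ C T₀ : ℝ, 1 ≤ C ∧
    ∀ T R L : ℝ, T₀ ≤ T → C ≤ L → Rng d T R L → ∀ F : Fam R L, F.B ≤ (L / R) ^ (k / 4) →
      (1 - 3 * k) / Real.log (L / R) ≤ Wf k T F

/-- Small coefficients. -/
def WoLe (k d : ℝ) : Prop := ∃ C T₀ : ℝ, 1 ≤ C ∧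
    ∀ T R L : ℝ, T₀ ≤ T → C ≤ L → Rng d T R L → ∀ (F : Fam R L) (p : ℕ), p ∈ QX (Xo k T R L) →
      ‖wo k T F p‖ ^ 2 / p ≤ C * F.B ^ 2 * Real.log T ^ (-(2 * d))

theorem gm_ge (n : ℕ) : (1 / 2 : ℝ) ≤ gm n := by
  cases n with
  | zero => simp [gm]; norm_num
  | succ n =>
    induction n with
    | zero => rw [gm_succ]; simp [gm]
    | succ n ih =>
      rw [gm_succ]
      have h1 : (1 : ℝ) ≤ ((n + 1 : ℕ) : ℝ) + 1 / 2 := by
        push_cast
        have : (0 : ℝ) ≤ n := by positivity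
        linarith
      nlinarith

theorem gm_fac (m : ℕ) : gm m * (4 ^ m * (m.factorial : ℝ)) = ((2 * m).factorial : ℝ) := by
  induction m with
  | zero => simp [gm]
  | succ m ih =>
    rw [show 2 * (m + 1) = 2 * m + 1 + 1 by ring, Nat.factorial_succ, Nat.factorial_succ, Nat.factorial_succ, gm_succ]
    push_cast
    rw [← ih]
    ring

theorem fac_gm (m : ℕ) (W : ℝ) : ((2 * m).factorial / (2 ^ m * m.factorial) : ℝ) * (W / 2) ^ m = gm m * W ^ m := by
  rw [← gm_fac m, div_pow]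
  have h1 : (2 : ℝ) ^ m ≠ 0 := by positivity
  have h2 : (m.factorial : ℝ) ≠ 0 := by positivity
  have h3 : (4 : ℝ) ^ m = 2 ^ m * 2 ^ m := by
    rw [← mul_pow]; norm_num
  rw [h3]
  field_simp

theorem dc_cont (Q : Finset ℕ) (w : ℕ → ℂ) : Continuous fun t : ℝ => (Helper62.OP.DC Q w t).re := by
  unfold Helper62.OP.DC
  refine Complex.continuous_re.comp ?_
  refine continuous_finsetSum _ fun p _ => ?_
  refine continuous_const.mul ?_
  refine Continuous.const_cpow (by fun_prop) (Or.inr fun t h => ?_)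
  have h1 := congrArg Complex.re h
  simp at h1

theorem qx_mem {X : ℝ} {p : ℕ} (hp : p ∈ QX X) : p.Prime ∧ (p : ℝ) ≤ Real.exp X := by
  unfold QX at hp
  rw [Finset.mem_filter, Finset.mem_range] at hp
  refine ⟨hp.2, ?_⟩
  have h1 : p ≤ ⌊Real.exp X⌋₊ := by omega
  exact (Nat.cast_le.mpr h1).trans (Nat.floor_le (Real.exp_pos X).le)

theorem qx_card {X : ℝ} (hX : 0 ≤ X) : ((QX X).card : ℝ) ≤ 2 * Real.exp X := by
  have h1 : (QX X).card ≤ ⌊Real.exp X⌋₊ + 1 := by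
    unfold QX
    refine (Finset.card_filter_le _ _).trans ?_
    rw [Finset.card_range]
  have h2 : ((QX X).card : ℝ) ≤ (⌊Real.exp X⌋₊ : ℝ) + 1 := by exact_mod_cast h1
  have h3 := Nat.floor_le (Real.exp_pos X).le
  have h4 := Real.one_le_exp hX
  linarith

/-- The eventual inequalities in `L`. -/
theorem ev_L (K : ℕ) {d : ℝ} (hd : 0 < d) : ∀ᶠ x : ℝ in atTop, 16 * ((K : ℝ) * (1 + 2 * Real.log x) + 1) ≤ x ^ (d / 2) := by
  have h1 := (isLittleO_log_rpow_atTop (show 0 < d / 2 by positivity)).bound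
    (show (0 : ℝ) < 1 / (64 * ((K : ℝ) + 1)) by positivity)
  have h2 := (tendsto_rpow_atTop (show 0 < d / 2 by positivity)).eventually_ge_atTop (32 * ((K : ℝ) + 1))
  filter_upwards [h1, h2, eventually_ge_atTop 1] with x hx1 hx2 hx3
  have hl := Real.log_nonneg hx3
  have hp : (0 : ℝ) < x ^ (d / 2) := Real.rpow_pos_of_pos (by linarith) _
  rw [Real.norm_eq_abs, Real.norm_eq_abs, abs_of_nonneg hl, abs_of_pos hp] at hx1
  have hK : (0 : ℝ) < 64 * ((K : ℝ) + 1) := by positivity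
  rw [div_mul_eq_mul_div, one_mul, le_div_iff₀ hK] at hx1
  have hK0 : (0 : ℝ) ≤ K := by positivity
  nlinarith

/-- The eventual inequalities in `log T`. -/
theorem ev_y (K : ℕ) {C : ℝ} (hC : 1 ≤ C) {d : ℝ} (hd : 0 < d) : ∀ᶠ y : ℝ in atTop,
    4 * ((K : ℝ) * (1 + 2 * Real.log y)) ^ 2 * (C * y ^ (-d)) * (2 * Real.log y) ≤ 1 := by
  have hE : (0 : ℝ) < 72 * ((K : ℝ) ^ 2 + 1) * C := by positivity
  have hE1 : (1 : ℝ) ≤ 72 * ((K : ℝ) ^ 2 + 1) * C := by
    have : (0 : ℝ) ≤ (K : ℝ) ^ 2 := by positivity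
    nlinarith
  have h1 := (isLittleO_log_rpow_atTop (show 0 < d / 3 by positivity)).bound
    (show (0 : ℝ) < 1 / (72 * ((K : ℝ) ^ 2 + 1) * C) by positivity)
  filter_upwards [h1, eventually_ge_atTop (Real.exp 1)] with y hy1 hy2
  have hy0 : 0 < y := (Real.exp_pos 1).trans_le hy2
  have hl : 1 ≤ Real.log y := by rw [← Real.log_exp 1]; exact Real.log_le_log (Real.exp_pos 1) hy2
  have hp : (0 : ℝ) < y ^ (d / 3) := Real.rpow_pos_of_pos hy0 _
  have hp3 : (y ^ (d / 3)) ^ (3 : ℕ) = y ^ d := by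
    rw [← Real.rpow_natCast, ← Real.rpow_mul hy0.le]
    congr 1
    push_cast
    ring
  rw [Real.norm_eq_abs, Real.norm_eq_abs, abs_of_nonneg (by linarith), abs_of_pos hp] at hy1
  set E : ℝ := 72 * ((K : ℝ) ^ 2 + 1) * C with hEd
  set l : ℝ := Real.log y with hld
  have h2 : E * l ≤ y ^ (d / 3) := by
    rw [div_mul_eq_mul_div, one_mul, le_div_iff₀ hE] at hy1
    linarith
  have h3 : (E * l) ^ 3 ≤ y ^ d := by
    rw [← hp3]
    exact pow_le_pow_left₀ (by positivity) h2 3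
  have h4 : E * l ^ 3 ≤ y ^ d := by
    refine le_trans ?_ h3
    rw [mul_pow]
    have : E ≤ E ^ 3 := by nlinarith [sq_nonneg E, mul_pos hE hE]
    exact mul_le_mul_of_nonneg_right this (by positivity)
  have h5 : (0 : ℝ) < y ^ (-d) := Real.rpow_pos_of_pos hy0 _
  have h6 : y ^ d * y ^ (-d) = 1 := by rw [← Real.rpow_add hy0]; simp
  have h7 : E * l ^ 3 * y ^ (-d) ≤ 1 := by
    rw [← h6]
    exact mul_le_mul_of_nonneg_right h4 h5.le
  refine le_trans ?_ h7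
  have h8 : (1 + 2 * l) ^ 2 ≤ 9 * l ^ 2 := by nlinarith
  have h9 : 4 * ((K : ℝ) * (1 + 2 * l)) ^ 2 * (C * y ^ (-d)) * (2 * l) =
    (8 * (K : ℝ) ^ 2 * C * l * y ^ (-d)) * (1 + 2 * l) ^ 2 := by ring
  rw [h9]
  have h10 : (8 * (K : ℝ) ^ 2 * C * l * y ^ (-d)) * (1 + 2 * l) ^ 2 ≤
      (8 * (K : ℝ) ^ 2 * C * l * y ^ (-d)) * (9 * l ^ 2) :=
    mul_le_mul_of_nonneg_left h8 (by positivity)
  refine h10.trans ?_
  rw [hEd]
  have h11 : 0 ≤ C * l ^ 3 * y ^ (-d) := by positivity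
  nlinarith

/-- The basic inequalities between the parameters. -/
theorem rng_basic {k d T R L : ℝ} (hk : 0 < k) (hkd : k ≤ d / 100) (hd : 0 < d) (hd1 : d ≤ 1) (hT : Real.exp 1 ≤ T)
    (hL : 2 ≤ L) (h : Rng d T R L) :
    1 ≤ Real.log T ∧ 1 ≤ R ∧ L ≤ Real.log T ∧ L ^ d ≤ L / R ∧ L / R ≤ L ∧ 0 < Real.log (L / R) ∧
      Real.log (L / R) ≤ Real.log L ∧ L ^ (d / 2) ≤ Ms k R L := by
  obtain ⟨h1, h2, h3⟩ := h
  have hL0 : 0 < L := by linarith
  have hL1 : 1 ≤ L := by linarith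
  have hT0 : 0 < T := (Real.exp_pos 1).trans_le hT
  have hl : 1 ≤ Real.log T := by rw [← Real.log_exp 1]; exact Real.log_le_log (Real.exp_pos 1) hT
  have hLd : 1 < L ^ d := Real.one_lt_rpow (by linarith) hd
  have hR1 : 1 ≤ R := hLd.le.trans h2
  have hR0 : 0 < R := by linarith
  have hLT : L ≤ Real.log T := by
    refine h1.trans ?_
    calc Real.log T ^ (1 - d) ≤ Real.log T ^ (1 : ℝ) := Real.rpow_le_rpow_of_exponent_le hl (by linarith)
      _ = _ := Real.rpow_one _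
  have hU1 : L ^ d ≤ L / R := by
    rw [le_div_iff₀ hR0]
    calc L ^ d * R ≤ L ^ d * L ^ (1 - d) := by gcongr
      _ = L := by rw [← Real.rpow_add hL0]; simp
  have hU2 : L / R ≤ L := div_le_self hL0.le hR1
  have hU0 : 0 < L / R := by positivity
  refine ⟨hl, hR1, hLT, hU1, hU2, Real.log_pos (hLd.trans_le hU1), Real.log_le_log hU0 hU2, ?_⟩
  unfold Ms
  calc L ^ (d / 2) ≤ L ^ (d - k) := Real.rpow_le_rpow_of_exponent_le hL1 (by linarith)
    _ = L ^ d * L ^ (-k) := by rw [← Real.rpow_add hL0]; rfl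
    _ ≤ R * L ^ (-k) := by gcongr
    _ ≤ R * (L / R) ^ (-k) := by
      refine mul_le_mul_of_nonneg_left ?_ hR0.le
      exact Real.rpow_le_rpow_of_nonpos hU0 hU2 (by linarith)

/-- O11 over the statements of the other blocks. -/
theorem pf_tail_of (h1 : MomEven) (h2 : MomOdd) {k d : ℝ} (h3 : LocOne k) (h4 : VarLow k d) (h5 : WoLe k d)
    (hk : 0 < k) (hkd : k ≤ d / 100) (hd : 0 < d) (hd1 : d ≤ 1) : ∃ c C T₀ : ℝ, 0 < c ∧ 1 ≤ C ∧
    ∀ T R L e : ℝ, T₀ ≤ T → C ≤ L → Rng d T R L → d / 2 ≤ e → e ≤ 3 → ∀ F : Fam R L, F.B ≤ L ^ c →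
      ENNReal.ofReal (1 / C * (L / R) ^ (-((1 + 10 * k) * e ^ 2)) * T) ≤ volume {t : ℝ | t ∈ Icc T (2 * T) ∧ e ≤ Pf k T F t} ∧
      ENNReal.ofReal (1 / C * (L / R) ^ (-((1 + 10 * k) * e ^ 2)) * T) ≤
        volume {t : ℝ | t ∈ Icc T (2 * T) ∧ Pf k T F t ≤ -e} := by
  obtain ⟨T1, h1⟩ := h1
  obtain ⟨T2, h2⟩ := h2
  obtain ⟨cl, K, hcl, hK, h3⟩ := h3
  obtain ⟨C4, T4, hC4, h4⟩ := h4
  obtain ⟨C5, T5, hC5, h5⟩ := h5
  obtain ⟨L0, hL0⟩ := eventually_atTop.mp (ev_L K hd)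
  obtain ⟨y0, hy0⟩ := eventually_atTop.mp (ev_y K hC5 hd)
  obtain ⟨T6, hT6⟩ := eventually_atTop.mp
    ((tendsto_rpow_atTop (show (0 : ℝ) < 7 / 16 by norm_num)).eventually_ge_atTop (32 * C5 * (K : ℝ) ^ 2 / d ^ 2))
  refine ⟨d * k / 4, max (max C4 C5) (max (1 / cl) (max L0 2)),
    max (max T1 T2) (max (max T4 T5) (max T6 (max (Real.exp y0) (Real.exp 1)))), by positivity,
    (hC4.trans (le_max_left _ _)).trans (le_max_left _ _), ?_⟩
  intro T R L e hT hL hR he he3 F hF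
  set C : ℝ := max (max C4 C5) (max (1 / cl) (max L0 2)) with hC
  have hC1 : 1 / cl ≤ C := (le_max_left _ _).trans (le_max_right _ _)
  have hC0 : 1 ≤ C := (hC4.trans (le_max_left _ _)).trans (le_max_left _ _)
  have hLC4 : C4 ≤ L := ((le_max_left _ _).trans (le_max_left _ _)).trans hL
  have hLC5 : C5 ≤ L := ((le_max_right _ _).trans (le_max_left _ _)).trans hL
  have hLL0 : L0 ≤ L := (((le_max_left _ _).trans (le_max_right _ _)).trans (le_max_right _ _)).trans hL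
  have hL2 : 2 ≤ L := (((le_max_right _ _).trans (le_max_right _ _)).trans (le_max_right _ _)).trans hL
  have hTT1 : T1 ≤ T := ((le_max_left _ _).trans (le_max_left _ _)).trans hT
  have hTT2 : T2 ≤ T := ((le_max_right _ _).trans (le_max_left _ _)).trans hT
  have hTT4 : T4 ≤ T := (((le_max_left _ _).trans (le_max_left _ _)).trans (le_max_right _ _)).trans hT
  have hTT5 : T5 ≤ T := (((le_max_right _ _).trans (le_max_left _ _)).trans (le_max_right _ _)).trans hT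
  have hTT6 : T6 ≤ T := ((((le_max_left _ _).trans (le_max_right _ _))).trans (le_max_right _ _)).trans hT
  have hTy : Real.exp y0 ≤ T := (((((le_max_left _ _).trans (le_max_right _ _)).trans (le_max_right _ _))).trans
    (le_max_right _ _)).trans hT
  have hTe : Real.exp 1 ≤ T := (((((le_max_right _ _).trans (le_max_right _ _)).trans (le_max_right _ _))).trans
    (le_max_right _ _)).trans hT
  obtain ⟨b1, b2, b3, b4, b5, b6, b7, b8⟩ := rng_basic hk hkd hd hd1 hTe hL2 hR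
  have hT0 : 0 < T := (Real.exp_pos 1).trans_le hTe
  have hL0' : 0 < L := by linarith
  have hR0 : 0 < R := by linarith
  have hU0 : 0 < L / R := by positivity
  have hlogL : 0 < Real.log L := Real.log_pos (by linarith)
  have hll : Real.log L ≤ Real.log (Real.log T) := Real.log_le_log hL0' b3
  have hyT : y0 ≤ Real.log T := by rw [← Real.log_exp y0]; exact Real.log_le_log (Real.exp_pos _) hTy
  have hk1 : k ≤ 1 / 100 := by linarith
  -- the total weight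
  have hB1 : 1 ≤ F.B := by
    unfold Fam.B
    have : 0 ≤ ∑ i, |F.c i| := Finset.sum_nonneg fun i _ => abs_nonneg _
    linarith
  have hBU : F.B ≤ (L / R) ^ (k / 4) := by
    refine hF.trans ?_
    calc L ^ (d * k / 4) = (L ^ d) ^ (k / 4) := by rw [← Real.rpow_mul hL0'.le]; ring_nf
      _ ≤ (L / R) ^ (k / 4) := Real.rpow_le_rpow (Real.rpow_nonneg hL0'.le _) b4 (by positivity)
  have hW := h4 T R L hTT4 hLC4 hR F hBU
  set W : ℝ := Wf k T F with hWd
  have hW1 : 1 / (2 * Real.log (L / R)) ≤ W := by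
    refine le_trans ?_ hW
    rw [div_le_div_iff₀ (by positivity) b6]
    nlinarith
  have hW0 : 0 < W := lt_of_lt_of_le (by positivity) hW1
  have hVi : 1 / W ≤ 2 * Real.log (L / R) := by
    rw [div_le_iff₀ hW0]
    rw [div_le_iff₀ (by positivity)] at hW1
    linarith
  have hVi' : 1 / W ≤ Real.log (L / R) / (1 - 3 * k) := by
    have h13 : 0 < 1 - 3 * k := by linarith
    rw [div_le_div_iff₀ hW0 h13]
    rw [div_le_iff₀ b6] at hW
    linarith
  -- the coefficients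
  set x : ℝ := C5 * Real.log T ^ (-d) with hx
  have hlT0 : 0 < Real.log T := by linarith
  have hx0 : 0 < x := by positivity
  have hcoef : ∀ p ∈ QX (Xo k T R L), ‖wo k T F p‖ ^ 2 / p ≤ x := by
    intro p hp
    refine (h5 T R L hTT5 hLC5 hR F p hp).trans ?_
    rw [hx, mul_assoc]
    refine mul_le_mul_of_nonneg_left ?_ (by linarith)
    have hB2 : F.B ≤ Real.log T ^ (d / 2) := by
      refine hF.trans ?_
      calc L ^ (d * k / 4) ≤ Real.log T ^ (d * k / 4) := Real.rpow_le_rpow hL0'.le b3 (by positivity)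
        _ ≤ Real.log T ^ (d / 2) := Real.rpow_le_rpow_of_exponent_le b1 (by nlinarith)
    calc F.B ^ 2 * Real.log T ^ (-(2 * d)) ≤ (Real.log T ^ (d / 2)) ^ 2 * Real.log T ^ (-(2 * d)) := by gcongr
      _ = Real.log T ^ (-d) := by
        rw [← Real.rpow_natCast, ← Real.rpow_mul hlT0.le, ← Real.rpow_add hlT0]
        congr 1
        push_cast
        ring
  -- the length of the sums
  have hM0 : 0 < Ms k R L := lt_of_lt_of_le (Real.rpow_pos_of_pos hL0' _) b8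
  set Y : ℝ := Real.exp (Xo k T R L) with hY
  have hX0 : 0 ≤ Xo k T R L := by unfold Xo XX; positivity
  have hY1 : 1 ≤ Y := Real.one_le_exp hX0
  have hnL : ∀ n : ℕ, (n : ℝ) ≤ K * (1 + 1 / W) → (n : ℝ) ≤ K * (1 + 2 * Real.log L) := by
    intro n hn
    refine hn.trans ?_
    have hK0 : (0 : ℝ) ≤ K := by positivity
    refine mul_le_mul_of_nonneg_left ?_ hK0
    linarith
  have hYn : ∀ n : ℕ, (n : ℝ) ≤ K * (1 + 1 / W) → Y ^ (n + 1) ≤ T ^ (1 / 16 : ℝ) := by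
    intro n hn
    have hn1 := hnL n hn
    have hn2 := hL0 L hLL0
    rw [hY, ← Real.exp_nat_mul, Real.rpow_def_of_pos hT0]
    refine Real.exp_le_exp.mpr ?_
    unfold Xo XX
    rw [← mul_div_assoc, div_le_iff₀ hM0]
    push_cast
    have hn3 : 16 * ((n : ℝ) + 1) ≤ Ms k R L := by linarith
    nlinarith
  have hyy := hy0 (Real.log T) hyT
  have hn4 : ∀ n : ℕ, (n : ℝ) ≤ K * (1 + 1 / W) → 4 * (n : ℝ) ^ 2 * x ≤ W := by
    intro n hn
    have hn1 : (n : ℝ) ≤ K * (1 + 2 * Real.log (Real.log T)) := by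
      refine (hnL n hn).trans ?_
      have hK0 : (0 : ℝ) ≤ K := by positivity
      refine mul_le_mul_of_nonneg_left ?_ hK0
      linarith
    have hll0 : 0 < 2 * Real.log (Real.log T) := by linarith
    calc 4 * (n : ℝ) ^ 2 * x ≤ 4 * ((K : ℝ) * (1 + 2 * Real.log (Real.log T))) ^ 2 * x := by gcongr
      _ ≤ 1 / (2 * Real.log (Real.log T)) := by rw [le_div_iff₀ hll0]; exact hyy
      _ ≤ 1 / (2 * Real.log (L / R)) := by
        apply one_div_le_one_div_of_le (by positivity)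
        linarith
      _ ≤ W := hW1
  -- a crude bound of the variance
  have hx1 : x ≤ C5 := by
    rw [hx]
    have : Real.log T ^ (-d) ≤ 1 := Real.rpow_le_one_of_one_le_of_nonpos b1 (by linarith)
    nlinarith
  have hWc : W ≤ 2 * C5 * T ^ (1 / 16 : ℝ) := by
    have hY2 : Y ≤ T ^ (1 / 16 : ℝ) := by
      have h := hYn 0 (by push_cast; positivity)
      simpa using h
    calc W = ∑ p ∈ QX (Xo k T R L), ‖wo k T F p‖ ^ 2 / p := rfl
      _ ≤ ∑ p ∈ QX (Xo k T R L), C5 := Finset.sum_le_sum fun p hp => (hcoef p hp).trans hx1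
      _ = (QX (Xo k T R L)).card * C5 := by rw [Finset.sum_const, nsmul_eq_mul]
      _ ≤ (2 * Y) * C5 := by
        refine mul_le_mul_of_nonneg_right (qx_card hX0) (by linarith)
      _ ≤ (2 * T ^ (1 / 16 : ℝ)) * C5 := by
        refine mul_le_mul_of_nonneg_right (by linarith) (by linarith)
      _ = _ := by ring
  have hK1 : (1 : ℝ) ≤ K := by exact_mod_cast hK
  have hodd0 : Real.sqrt W ≤ e / K * (1 / 2) * T ^ (1 / 4 : ℝ) := by
    have hR1 : 0 ≤ d / (4 * K) * T ^ (1 / 4 : ℝ) := by positivity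
    have hR2 : d / (4 * K) * T ^ (1 / 4 : ℝ) ≤ e / K * (1 / 2) * T ^ (1 / 4 : ℝ) := by
      refine mul_le_mul_of_nonneg_right ?_ (by positivity)
      rw [div_mul_div_comm, div_le_div_iff₀ (by positivity) (by positivity)]
      nlinarith
    refine le_trans ?_ hR2
    rw [Real.sqrt_le_left hR1]
    refine hWc.trans ?_
    have hT7 := hT6 T hTT6
    rw [div_le_iff₀ (by positivity)] at hT7
    have e1 : (T ^ (1 / 4 : ℝ)) ^ 2 = T ^ (7 / 16 : ℝ) * T ^ (1 / 16 : ℝ) := by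
      rw [← Real.rpow_natCast, ← Real.rpow_mul hT0.le, ← Real.rpow_add hT0]
      norm_num
    rw [mul_pow, e1, div_pow, ← mul_assoc]
    refine mul_le_mul_of_nonneg_right ?_ (by positivity)
    rw [div_mul_eq_mul_div, le_div_iff₀ (by positivity)]
    nlinarith
  -- the localisation
  have hloc := h3 T (2 * T) T W e (fun t => Pf k T F t) (dc_cont _ _) hT0 hW0 (by linarith) he3 ?_ ?_ ?_
  · have hexp : 1 / C * (L / R) ^ (-((1 + 10 * k) * e ^ 2)) * T ≤ cl * Real.exp (-((1 + k) * e ^ 2 / W)) * T := by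
      refine mul_le_mul_of_nonneg_right ?_ hT0.le
      refine mul_le_mul ?_ ?_ (Real.rpow_nonneg hU0.le _) hcl.le
      · rw [div_le_iff₀ (by linarith)]
        rw [div_le_iff₀ hcl] at hC1
        linarith
      · rw [Real.rpow_def_of_pos hU0]
        refine Real.exp_le_exp.mpr ?_
        have h13 : 0 < 1 - 3 * k := by linarith
        have hq : (1 + k) * e ^ 2 / W ≤ (1 + 10 * k) * e ^ 2 * Real.log (L / R) := by
          calc (1 + k) * e ^ 2 / W = (1 + k) * e ^ 2 * (1 / W) := by ring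
            _ ≤ (1 + k) * e ^ 2 * (Real.log (L / R) / (1 - 3 * k)) := by gcongr
            _ = (e ^ 2 * Real.log (L / R)) * ((1 + k) / (1 - 3 * k)) := by ring
            _ ≤ (e ^ 2 * Real.log (L / R)) * (1 + 10 * k) := by
              refine mul_le_mul_of_nonneg_left ?_ (by positivity)
              rw [div_le_iff₀ h13]
              nlinarith
            _ = _ := by ring
        linarith
    exact ⟨(ENNReal.ofReal_le_ofReal hexp).trans hloc.1, (ENNReal.ofReal_le_ofReal hexp).trans hloc.2⟩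
  · intro n hn
    have h := (h1 T Y hTT1 hY1 (QX (Xo k T R L)) (wo k T F) n x (fun p hp => qx_mem hp) (hYn n hn) hcoef (hn4 n hn) hW0).1
    rw [mul_assoc, fac_gm] at h
    refine le_trans (le_of_eq ?_) h
    rw [hWd]
    unfold Wf
    ring
  · intro n hn
    have h := (h1 T Y hTT1 hY1 (QX (Xo k T R L)) (wo k T F) n x (fun p hp => qx_mem hp) (hYn n hn) hcoef (hn4 n hn) hW0).2
    rw [mul_assoc, fac_gm] at h
    refine h.trans (le_of_eq ?_)
    rw [hWd]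
    unfold Wf
    ring
  · intro n hn
    have h := h2 T Y hTT2 hY1 (QX (Xo k T R L)) (wo k T F) n (fun p hp => qx_mem hp) (hYn n hn)
    refine h.trans ?_
    have hs : Real.sqrt (∑ p ∈ QX (Xo k T R L), ‖wo k T F p‖ ^ 2 / p) ^ (2 * n + 1) = W ^ n * Real.sqrt W := by
      have hs1 : Real.sqrt W ^ (2 * n + 1) = W ^ n * Real.sqrt W := by
        rw [pow_succ, pow_mul, Real.sq_sqrt hW0.le]
      exact hs1
    rw [hs]
    have e2 : T ^ (3 / 4 : ℝ) * T ^ (1 / 4 : ℝ) = T := by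
      rw [← Real.rpow_add hT0]
      norm_num
    have hg := gm_ge n
    have hWn : 0 < W ^ n := by positivity
    have h34 : 0 < T ^ (3 / 4 : ℝ) := by positivity
    calc T ^ (3 / 4 : ℝ) * (W ^ n * Real.sqrt W) ≤ T ^ (3 / 4 : ℝ) * (W ^ n * (e / K * (1 / 2) * T ^ (1 / 4 : ℝ))) := by gcongr
      _ = e / K * (1 / 2 * W ^ n) * (T ^ (3 / 4 : ℝ) * T ^ (1 / 4 : ℝ)) := by ring
      _ = e / K * (1 / 2 * W ^ n) * T := by rw [e2]
      _ ≤ e / K * (gm n * W ^ n) * T := by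
        have he0 : 0 ≤ e / K := by
          have : 0 < e := by linarith
          positivity
        gcongr

end Pool.Agent.Helper24.OP
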